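import Pool.Agent.R357.RG.Strip
import Pool.Agent.Results.MP_6b55e5_an.RogersQ2

set_option autoImplicit false

namespace Pool.Agent.Results.MP_6b55e5_an.RogersQ1

open MeasureTheory

/-- The Euclidean plane. -/
abbrev Plane : Type := EuclideanSpace ℝ (Fin 2)

/-- `S` is a closed strip of width `w > 0`: the closed set between the two parallel lines
`⟪u, x⟫ = c` and `⟪u, x⟫ = c + w`, where `u` is a unit vector. -/
def IsStrip (S : Set Plane) (w : ℝ) : Prop :=
  0 < w ∧ ∃ (u : Plane) (c : ℝ), ‖u‖ = 1 ∧ S = {x | c ≤ inner ℝ u x ∧ inner ℝ u x ≤ c + w}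

/-- A Besicovitch set: bounded, Lebesgue null, with a closed unit segment in every direction. -/
def IsBesicovitch (E : Set Plane) : Prop :=
  Bornology.IsBounded E ∧ volume E = 0 ∧
    ∀ e : Plane, ‖e‖ = 1 → ∃ x : Plane, segment ℝ x (x + e) ⊆ E

/-- Every covering of `E` by finitely or countably many closed strips `S i` of widths `w i > 0` has
total width `∑ w i ≥ ε` (the sum is taken in `[0, ∞]`). -/
def NeedsWidth (E : Set Plane) (ε : ℝ) : Prop :=
  ∀ (ι : Type) (_ : Countable ι) (S : ι → Set Plane) (w : ι → ℝ),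
    (∀ i, IsStrip (S i) (w i)) → (E ⊆ ⋃ i, S i) →
      ENNReal.ofReal ε ≤ ∑' i, ENNReal.ofReal (w i)

/-- The compact null set `K = {(x, y) : 0 ≤ x ≤ 1, y - x² ∈ C}`, `C` the Cantor ternary set. -/
def K : Set Plane := {v | (0 ≤ v 0 ∧ v 0 ≤ 1) ∧ v 1 - v 0 ^ 2 ∈ cantorSet}

lemma K_null : volume K = 0 := by
  have hmp : MeasurePreserving (fun v : Plane => (v 0, v 1)) volume volume := by
    have h1 := PiLp.volume_preserving_ofLp (Fin 2)
    have h2 := volume_preserving_finTwoArrow ℝ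
    exact h2.comp h1
  set K' : Set (ℝ × ℝ) := {z | (0 ≤ z.1 ∧ z.1 ≤ 1) ∧ z.2 - z.1 ^ 2 ∈ cantorSet} with hK'
  have hm : MeasurableSet K' := by
    have h1 : MeasurableSet {z : ℝ × ℝ | 0 ≤ z.1 ∧ z.1 ≤ 1} :=
      (measurableSet_le measurable_const measurable_fst).inter
        (measurableSet_le measurable_fst measurable_const)
    have h2 : MeasurableSet {z : ℝ × ℝ | z.2 - z.1 ^ 2 ∈ cantorSet} := by
      have h3 : Measurable fun z : ℝ × ℝ => z.2 - z.1 ^ 2 := by fun_prop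
      exact h3 isClosed_cantorSet.measurableSet
    exact h1.inter h2
  have h0 : (volume : Measure (ℝ × ℝ)) K' = 0 := by
    rw [Measure.volume_eq_prod, Measure.measure_prod_null hm]
    refine Filter.Eventually.of_forall fun x => ?_
    have hsub : Prod.mk x ⁻¹' K' ⊆ (fun y => y + -(x ^ 2)) ⁻¹' cantorSet := by
      rintro y ⟨_, h⟩
      simpa [sub_eq_add_neg] using h
    refine measure_mono_null hsub ?_
    rw [measure_preimage_add_right]
    exact Pool.R357.RG.volume_cantorSet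
  have h1 : K = (fun v : Plane => (v 0, v 1)) ⁻¹' K' := rfl
  rw [h1, hmp.measure_preimage hm.nullMeasurableSet, h0]

lemma K_bounded : Bornology.IsBounded K := by
  rw [isBounded_iff_forall_norm_le]
  refine ⟨3, ?_⟩
  rintro v ⟨⟨h0, h1⟩, h2⟩
  have h3 := cantorSet_subset_unitInterval h2
  rw [EuclideanSpace.norm_eq, Fin.sum_univ_two]
  apply Real.sqrt_le_iff.2
  refine ⟨by norm_num, ?_⟩
  rw [Real.norm_eq_abs, Real.norm_eq_abs, sq_abs, sq_abs]
  have h4 : v 0 ^ 2 ≤ 1 := by nlinarith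
  have h5 : 0 ≤ v 0 ^ 2 := by positivity
  have h6 : v 1 ≤ 2 := by linarith [h3.2]
  have h7 : 0 ≤ v 1 := by linarith [h3.1]
  nlinarith

lemma K_needs : NeedsWidth K (1 / 80) := by
  intro ι hι S w hS hcov
  choose hw u c hu hSe using hS
  have huu : ∀ i, (u i 0) ^ 2 + (u i 1) ^ 2 = 1 := by
    intro i
    have h1 := hu i
    rw [EuclideanSpace.norm_eq, Fin.sum_univ_two, Real.sqrt_eq_one] at h1
    rw [Real.norm_eq_abs, Real.norm_eq_abs, sq_abs, sq_abs] at h1
    exact h1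
  have hinner : ∀ (i : ι) (v : Plane), inner ℝ (u i) v = u i 0 * v 0 + u i 1 * v 1 := by
    intro i v
    rw [PiLp.inner_apply, Fin.sum_univ_two]
    simp only [RCLike.inner_apply, conj_trivial]
    ring
  have hsq : Set.Ico (0 : ℝ) 1 ×ˢ Set.Ico (0 : ℝ) 1 ⊆
      ⋃ i, Pool.R357.RG.PS (u i 0) (u i 1) (c i) (w i) := by
    rintro ⟨x, t⟩ ⟨hx, ht⟩
    simp only at hx ht
    set v : Plane := WithLp.toLp 2 ![x, x ^ 2 + Pool.R357.RG.Psi t] with hv
    have hv0 : v 0 = x := rfl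
    have hv1 : v 1 = x ^ 2 + Pool.R357.RG.Psi t := rfl
    have hvK : v ∈ K := by
      refine ⟨?_, ?_⟩
      · rw [hv0]; exact ⟨hx.1, hx.2.le⟩
      · rw [hv0, hv1, add_sub_cancel_left, Pool.R357.RG.Psi_eq ht]
        exact Pool.R357.RG.Phi_mem t
    obtain ⟨i, hi⟩ := Set.mem_iUnion.1 (hcov hvK)
    rw [hSe i] at hi
    obtain ⟨h1, h2⟩ := hi
    rw [hinner, hv0, hv1] at h1 h2
    exact Set.mem_iUnion.2 ⟨i, ⟨hx, ht⟩, h1, h2⟩
  have hone : (volume : Measure (ℝ × ℝ)) (Set.Ico (0 : ℝ) 1 ×ˢ Set.Ico (0 : ℝ) 1) = 1 := by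
    rw [Measure.volume_eq_prod, Measure.prod_prod, Real.volume_Ico]; simp
  have h1 : (1 : ENNReal) ≤ ∑' i, ENNReal.ofReal (80 * w i) := by
    rw [← hone]
    refine (measure_mono hsq).trans ((measure_iUnion_le _).trans ?_)
    exact ENNReal.tsum_le_tsum fun i => Pool.R357.RG.PS_le _ _ _ _ (hw i) (huu i)
  have h2 : ∑' i, ENNReal.ofReal (80 * w i) = ENNReal.ofReal 80 * ∑' i, ENNReal.ofReal (w i) := by
    rw [← ENNReal.tsum_mul_left]
    exact tsum_congr fun i => ENNReal.ofReal_mul (by norm_num)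
  rw [h2] at h1
  calc ENNReal.ofReal (1 / 80) = ENNReal.ofReal (1 / 80) * 1 := by rw [mul_one]
    _ ≤ ENNReal.ofReal (1 / 80) * (ENNReal.ofReal 80 * ∑' i, ENNReal.ofReal (w i)) := by gcongr
    _ = ∑' i, ENNReal.ofReal (w i) := by
      rw [← mul_assoc, ← ENNReal.ofReal_mul (by norm_num)]
      norm_num

/-- There is a Besicovitch set all of whose strip coverings have total width at least `1/80`; in fact
every Besicovitch set is contained in such a Besicovitch set. -/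
theorem result :
    (∃ E : Set Plane, IsBesicovitch E ∧ NeedsWidth E (1 / 80)) ∧
    (∀ B : Set Plane, IsBesicovitch B →
      ∃ E : Set Plane, B ⊆ E ∧ IsBesicovitch E ∧ NeedsWidth E (1 / 80)) := by
  have key : ∀ B : Set Plane, IsBesicovitch B →
      ∃ E : Set Plane, B ⊆ E ∧ IsBesicovitch E ∧ NeedsWidth E (1 / 80) := by
    rintro B ⟨hb, hn, hs⟩
    refine ⟨B ∪ K, Set.subset_union_left, ⟨hb.union K_bounded, ?_, ?_⟩, ?_⟩
    · exact measure_union_null hn K_null
    · intro e he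
      obtain ⟨x, hx⟩ := hs e he
      exact ⟨x, hx.trans Set.subset_union_left⟩
    · intro ι hι S w hS hcov
      exact K_needs ι hι S w hS (Set.subset_union_right.trans hcov)
  obtain ⟨B, ⟨hB1, hB2, hB3⟩, _⟩ := Pool.Agent.Results.MP_6b55e5_an.RogersQ2.result
  obtain ⟨E, _, hE⟩ := key B ⟨hB1, hB2, hB3⟩
  exact ⟨⟨E, hE⟩, key⟩

end Pool.Agent.Results.MP_6b55e5_an.RogersQ1
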